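import Mathlib

/-!
If the unit ball of a Banach space X embeds uniformly into a reflexive space then X is weakly
sequentially complete.

Outline of the proof. Let x be a weakly Cauchy sequence in the unit ball of X.

1. Nodes are finite lists of pairs of indices for which some functional φ of norm at most one
satisfies φ (x i) - φ (x j) ≥ ε for every pair (i, j) of the list, the pairs being further and
further out. As φ ∘ x is Cauchy for every φ, weak star compactness shows that the tree of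
nodes is well founded.

2. A process is a well-founded adaptive scheme of draws of natural numbers, each draw going to
infinity along an ultrafilter. By recursion on the rank of a finite set S of nodes we attach to S and
a weight w a process PP S w whose results are finite positive combinations of the x n of total
weight w with arbitrarily large indices: first draw a large number n of blocks, then for every
block draw m, and run the process of weight w / (n + 1) attached to the one step extensions of S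
with entries at most m.

3. The coupling theorem KK_all: two such processes attached to S can be interleaved (all draws going
to infinity in the order of the interleaving) so that the results v, v' satisfy
φ v - φ v' ≤ ε w + δ for all norm one functionals φ in the class of a node of S. Only one block
can be lost, as after the first jump of φ the class of φ is controlled by a longer node, to which
the induction hypothesis applies. For S = {root} this says that v and v' are close in norm.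

4. The concentration theorem: if a process is coupled with itself with small error in a reflexive
space, then in the iterated limit its result stays close to one point (iterated weak limits
of the process on one side, of the norming functionals on the other side).

5. Hence two far out results of the process of the root are mapped close to the same point by the
embedding, so that they are close to each other; letting the second one go weakly to infinity, the limit
functional of the sequence x in the bidual is as close as we like to X, so it lies in X.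
-/

set_option autoImplicit false

open Filter Topology

namespace Pool.Agent.Helper301.WSC

/-- a nonprincipal ultrafilter on the natural numbers -/
noncomputable abbrev UU : Filter ℕ := ((Filter.hyperfilter ℕ : Ultrafilter ℕ) : Filter ℕ)

lemma UU_gt (N : ℕ) : ∀ᶠ n in UU, N < n :=
  (Nat.hyperfilter_le_atTop : UU ≤ atTop) (eventually_gt_atTop N)

/-- limit along the ultrafilter -/
noncomputable def rlim (g : ℕ → ℝ) : ℝ := limUnder UU g

lemma rlim_tendsto {g : ℕ → ℝ} {B : ℝ} (h : ∀ n, |g n| ≤ B) : Tendsto g UU (𝓝 (rlim g)) := by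
  apply tendsto_nhds_limUnder
  obtain ⟨L, _, hL⟩ := (isCompact_Icc (a := -B) (b := B)).ultrafilter_le_nhds
    ((Filter.hyperfilter ℕ).map g) (by
      rw [Ultrafilter.coe_map, Filter.le_principal_iff]
      apply Filter.mem_map.2
      apply Filter.mem_of_superset Filter.univ_mem
      intro n _
      exact abs_le.1 (h n))
  exact ⟨L, hL⟩

lemma rlim_abs_le {g : ℕ → ℝ} {B : ℝ} (h : ∀ n, |g n| ≤ B) : |rlim g| ≤ B :=
  le_of_tendsto (rlim_tendsto h).abs (Eventually.of_forall h)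

section Fun

variable {E : Type*} [NormedAddCommGroup E] [NormedSpace ℝ E]

lemma exists_flim (g : ℕ → (E →L[ℝ] ℝ)) {B : ℝ} (hB : 0 ≤ B) (h : ∀ n, ‖g n‖ ≤ B) :
    ∃ ℓ : E →L[ℝ] ℝ, ‖ℓ‖ ≤ B ∧ ∀ v, Tendsto (fun n => g n v) UU (𝓝 (ℓ v)) := by
  have hb : ∀ v n, |g n v| ≤ B * ‖v‖ := fun v n =>
    ((g n).le_opNorm v).trans (mul_le_mul_of_nonneg_right (h n) (norm_nonneg _))
  have ht : ∀ v, Tendsto (fun n => g n v) UU (𝓝 (rlim (fun n => g n v))) :=
    fun v => rlim_tendsto (hb v)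
  let ℓ : E →ₗ[ℝ] ℝ :=
    { toFun := fun v => rlim (fun n => g n v)
      map_add' := by
        intro v w
        refine tendsto_nhds_unique (ht (v + w)) ?_
        have := (ht v).add (ht w)
        simpa only [map_add] using this
      map_smul' := by
        intro c v
        refine tendsto_nhds_unique (ht (c • v)) ?_
        have := (ht v).const_mul c
        simpa only [map_smul, smul_eq_mul, RingHom.id_apply] using this }
  refine ⟨ℓ.mkContinuous B (fun v => rlim_abs_le (hb v)), ?_, fun v => ht v⟩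
  exact LinearMap.mkContinuous_norm_le _ hB _

open Classical in
/-- limit of functionals -/
noncomputable def flim (g : ℕ → (E →L[ℝ] ℝ)) : E →L[ℝ] ℝ :=
  if h : ∃ ℓ : E →L[ℝ] ℝ, ∀ v, Tendsto (fun n => g n v) UU (𝓝 (ℓ v)) then h.choose else 0

lemma flim_spec (g : ℕ → (E →L[ℝ] ℝ)) {B : ℝ} (hB : 0 ≤ B) (h : ∀ n, ‖g n‖ ≤ B) :
    ‖flim g‖ ≤ B ∧ ∀ v, Tendsto (fun n => g n v) UU (𝓝 (flim g v)) := by
  obtain ⟨ℓ, hℓ, hℓ2⟩ := exists_flim g hB h
  have hex : ∃ ℓ : E →L[ℝ] ℝ, ∀ v, Tendsto (fun n => g n v) UU (𝓝 (ℓ v)) := ⟨ℓ, hℓ2⟩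
  have h1 : flim g = hex.choose := dif_pos hex
  have h2 : hex.choose = ℓ := by
    ext v
    exact tendsto_nhds_unique (hex.choose_spec v) (hℓ2 v)
  rw [h1, h2]
  exact ⟨hℓ, hℓ2⟩

lemma exists_wlim (hE : Function.Surjective (NormedSpace.inclusionInDoubleDual ℝ E))
    (z : ℕ → E) {B : ℝ} (hB : 0 ≤ B) (h : ∀ n, ‖z n‖ ≤ B) :
    ∃ y : E, ‖y‖ ≤ B ∧ ∀ φ : E →L[ℝ] ℝ, Tendsto (fun n => φ (z n)) UU (𝓝 (φ y)) := by
  obtain ⟨ℓ, hℓ, hℓ2⟩ := exists_flim
    (fun n => (NormedSpace.inclusionInDoubleDual ℝ E (z n) : (E →L[ℝ] ℝ) →L[ℝ] ℝ)) hB (fun n => by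
      refine (NormedSpace.double_dual_bound ℝ E (z n)).trans (h n))
  obtain ⟨y, hy⟩ := hE ℓ
  refine ⟨y, ?_, fun φ => ?_⟩
  · have h1 : ‖NormedSpace.inclusionInDoubleDual ℝ E y‖ = ‖y‖ :=
      (NormedSpace.inclusionInDoubleDualLi ℝ (E := E)).norm_map y
    rw [← h1, hy]
    exact hℓ
  · have h1 := hℓ2 φ
    have h2 : ℓ φ = φ y := by rw [← hy]; rfl
    rw [h2] at h1
    exact h1

open Classical in
/-- weak limit -/
noncomputable def wlim (z : ℕ → E) : E :=
  if h : ∃ y : E, ∀ φ : E →L[ℝ] ℝ, Tendsto (fun n => φ (z n)) UU (𝓝 (φ y)) then h.choose else 0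

lemma wlim_spec (hE : Function.Surjective (NormedSpace.inclusionInDoubleDual ℝ E))
    (z : ℕ → E) {B : ℝ} (hB : 0 ≤ B) (h : ∀ n, ‖z n‖ ≤ B) :
    ‖wlim z‖ ≤ B ∧ ∀ φ : E →L[ℝ] ℝ, Tendsto (fun n => φ (z n)) UU (𝓝 (φ (wlim z))) := by
  obtain ⟨y, hy, hy2⟩ := exists_wlim hE z hB h
  have hex : ∃ y : E, ∀ φ : E →L[ℝ] ℝ, Tendsto (fun n => φ (z n)) UU (𝓝 (φ y)) := ⟨y, hy2⟩
  have h1 : wlim z = hex.choose := dif_pos hex
  have h2 : hex.choose = y := by
    rw [SeparatingDual.eq_iff_forall_dual_eq (R := ℝ)]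
    intro φ
    exact tendsto_nhds_unique (hex.choose_spec φ) (hy2 φ)
  rw [h1, h2]
  exact ⟨hy, hy2⟩

end Fun

/-! ### processes -/

/-- a process: finitely many draws of natural numbers (well-founded), then a result -/
inductive Proc (V : Type) : Type
  | ret (v : V) : Proc V
  | draw (f : ℕ → Proc V) : Proc V

namespace Proc

variable {V W : Type}

def bind : Proc V → (V → Proc W) → Proc W
  | ret v, k => k v
  | draw f, k => draw (fun n => (f n).bind k)

lemma bind_ret (P : Proc V) : P.bind ret = P := by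
  induction P with
  | ret v => rfl
  | draw f ih => simp only [bind]; congr 1; funext n; exact ih n

lemma bind_assoc {U : Type} (P : Proc V) (k : V → Proc W) (l : W → Proc U) :
    (P.bind k).bind l = P.bind (fun v => (k v).bind l) := by
  induction P with
  | ret v => rfl
  | draw f ih => simp only [bind]; congr 1; funext n; exact ih n

/-- the property holds in the iterated limit -/
def Most (α : V → Prop) : Proc V → Prop
  | ret v => α v
  | draw f => ∀ᶠ n in UU, Most α (f n)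

lemma Most.mono {α β : V → Prop} (h : ∀ v, α v → β v) {P : Proc V} (hP : Most α P) :
    Most β P := by
  induction P with
  | ret v => exact h v hP
  | draw f ih =>
    have hP' : ∀ᶠ n in UU, Most α (f n) := hP
    exact hP'.mono (fun n hn => ih n hn)

lemma Most.and {α β : V → Prop} {P : Proc V} (h1 : Most α P) (h2 : Most β P) :
    Most (fun v => α v ∧ β v) P := by
  induction P with
  | ret v => exact ⟨h1, h2⟩
  | draw f ih =>
    have h1' : ∀ᶠ n in UU, Most α (f n) := h1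
    have h2' : ∀ᶠ n in UU, Most β (f n) := h2
    exact (h1'.and h2').mono (fun n hn => ih n hn.1 hn.2)

lemma Most.exists {α : V → Prop} {P : Proc V} (h : Most α P) : ∃ v, α v := by
  induction P with
  | ret v => exact ⟨v, h⟩
  | draw f ih =>
    have h' : ∀ᶠ n in UU, Most α (f n) := h
    obtain ⟨n, hn⟩ := h'.exists
    exact ih n hn

lemma Most.bind {α : V → Prop} {β : W → Prop} {P : Proc V} {k : V → Proc W} (h1 : Most α P)
    (h2 : ∀ v, α v → Most β (k v)) : Most β (P.bind k) := by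
  induction P with
  | ret v => exact h2 v h1
  | draw f ih =>
    have h1' : ∀ᶠ n in UU, Most α (f n) := h1
    exact h1'.mono (fun n hn => ih n hn)

/-- iterated limit of a real function -/
noncomputable def lim (ψ : V → ℝ) : Proc V → ℝ
  | ret v => ψ v
  | draw f => rlim (fun n => lim ψ (f n))

lemma lim_abs_le {ψ : V → ℝ} {B : ℝ} (h : ∀ v, |ψ v| ≤ B) (P : Proc V) : |lim ψ P| ≤ B := by
  induction P with
  | ret v => exact h v
  | draw f ih => exact rlim_abs_le ih

lemma most_of_lim_lt {ψ : V → ℝ} {B c : ℝ} (h : ∀ v, |ψ v| ≤ B) (P : Proc V)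
    (hP : lim ψ P < c) : Most (fun v => ψ v < c) P := by
  induction P with
  | ret v => exact hP
  | draw f ih =>
    have h1 : Tendsto (fun n => lim ψ (f n)) UU (𝓝 (rlim (fun n => lim ψ (f n)))) :=
      rlim_tendsto (fun n => lim_abs_le h (f n))
    have h2 : ∀ᶠ n in UU, lim ψ (f n) < c := h1.eventually (gt_mem_nhds hP)
    exact h2.mono (fun n hn => ih n hn)

/-- iterated limit of functionals -/
noncomputable def fl {E : Type} [NormedAddCommGroup E] [NormedSpace ℝ E]
    (G : V → (E →L[ℝ] ℝ)) : Proc V → (E →L[ℝ] ℝ)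
  | ret v => G v
  | draw f => flim (fun n => fl G (f n))

lemma fl_norm_le {E : Type} [NormedAddCommGroup E] [NormedSpace ℝ E] {G : V → (E →L[ℝ] ℝ)}
    {B : ℝ} (hB : 0 ≤ B) (h : ∀ v, ‖G v‖ ≤ B) (P : Proc V) : ‖fl G P‖ ≤ B := by
  induction P with
  | ret v => exact h v
  | draw f ih => exact (flim_spec _ hB ih).1

/-- iterated weak limit -/
noncomputable def wl {E : Type} [NormedAddCommGroup E] [NormedSpace ℝ E]
    (F : V → E) : Proc V → E
  | ret v => F v
  | draw f => wlim (fun n => wl F (f n))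

lemma wl_norm_le {E : Type} [NormedAddCommGroup E] [NormedSpace ℝ E]
    (hE : Function.Surjective (NormedSpace.inclusionInDoubleDual ℝ E)) {F : V → E}
    {B : ℝ} (hB : 0 ≤ B) (h : ∀ v, ‖F v‖ ≤ B) (P : Proc V) : ‖wl F P‖ ≤ B := by
  induction P with
  | ret v => exact h v
  | draw f ih => exact (wlim_spec hE _ hB ih).1

end Proc

open Proc

/-- coupling of two processes: the draws are interleaved, the two results are in the relation
`ρ` in the iterated limit -/
inductive Cpl {V W : Type} (ρ : V → W → Prop) : Proc V → Proc W → Prop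
  | ret (v : V) (w : W) (h : ρ v w) : Cpl ρ (ret v) (ret w)
  | left (f : ℕ → Proc V) (Q : Proc W) (A : Set ℕ) (hA : A ∈ UU) (h : ∀ n ∈ A, Cpl ρ (f n) Q) :
      Cpl ρ (draw f) Q
  | right (P : Proc V) (g : ℕ → Proc W) (A : Set ℕ) (hA : A ∈ UU) (h : ∀ n ∈ A, Cpl ρ P (g n)) :
      Cpl ρ P (draw g)

namespace Cpl

variable {V W V' W' : Type} {ρ : V → W → Prop}

lemma leftE {f : ℕ → Proc V} {Q : Proc W} (h : ∀ᶠ n in UU, Cpl ρ (f n) Q) : Cpl ρ (draw f) Q :=
  left f Q _ h (fun _ hn => hn)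

lemma rightE {P : Proc V} {g : ℕ → Proc W} (h : ∀ᶠ n in UU, Cpl ρ P (g n)) : Cpl ρ P (draw g) :=
  right P g _ h (fun _ hn => hn)

lemma mono {ρ' : V → W → Prop} (h : ∀ v w, ρ v w → ρ' v w) {P : Proc V} {Q : Proc W}
    (hPQ : Cpl ρ P Q) : Cpl ρ' P Q := by
  induction hPQ with
  | ret v w h1 => exact ret v w (h v w h1)
  | left f Q A hA _ ih => exact left f Q A hA ih
  | right P g A hA _ ih => exact right P g A hA ih

lemma bind {σ : V' → W' → Prop} {P : Proc V} {Q : Proc W} {k : V → Proc V'} {l : W → Proc W'}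
    (hPQ : Cpl ρ P Q) (h : ∀ v w, ρ v w → Cpl σ (k v) (l w)) :
    Cpl σ (P.bind k) (Q.bind l) := by
  induction hPQ with
  | ret v w h1 => exact h v w h1
  | left f Q A hA _ ih => exact left _ _ A hA ih
  | right P g A hA _ ih => exact right _ _ A hA ih

lemma and_most {α : V → Prop} {β : W → Prop} {P : Proc V} {Q : Proc W}
    (hPQ : Cpl ρ P Q) (hP : Most α P) (hQ : Most β Q) :
    Cpl (fun v w => ρ v w ∧ α v ∧ β w) P Q := by
  induction hPQ with
  | ret v w h1 => exact ret v w ⟨h1, hP, hQ⟩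
  | left f Q A hA _ ih =>
    have hP' : ∀ᶠ n in UU, Most α (f n) := hP
    exact leftE ((hP'.and hA).mono (fun n hn => ih n hn.2 hn.1 hQ))
  | right P g A hA _ ih =>
    have hQ' : ∀ᶠ n in UU, Most β (g n) := hQ
    exact rightE ((hQ'.and hA).mono (fun n hn => ih n hn.2 hP hn.1))

lemma soloL {α : V' → Prop} {P : Proc V'} {k : V' → Proc V} {Q : Proc W} (hP : Most α P)
    (h : ∀ v, α v → Cpl ρ (k v) Q) : Cpl ρ (P.bind k) Q := by
  induction P with
  | ret v => exact h v hP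
  | draw f ih =>
    have hP' : ∀ᶠ n in UU, Most α (f n) := hP
    exact leftE (hP'.mono (fun n hn => ih n hn))

lemma soloR {α : W' → Prop} {Q : Proc W'} {k : W' → Proc W} {P : Proc V} (hQ : Most α Q)
    (h : ∀ v, α v → Cpl ρ P (k v)) : Cpl ρ P (Q.bind k) := by
  induction Q with
  | ret v => exact h v hQ
  | draw f ih =>
    have hQ' : ∀ᶠ n in UU, Most α (f n) := hQ
    exact rightE (hQ'.mono (fun n hn => ih n hn))

end Cpl

/-- the pairing inequality -/
theorem pairing {V W E : Type} [NormedAddCommGroup E] [NormedSpace ℝ E]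
    (hE : Function.Surjective (NormedSpace.inclusionInDoubleDual ℝ E))
    {ρ : V → W → Prop} {P : Proc V} {Q : Proc W} (hPQ : Cpl ρ P Q)
    (F : V → E) (G : W → (E →L[ℝ] ℝ)) (a b : W → ℝ) {B c : ℝ} (hB : 0 ≤ B)
    (hF : ∀ v, ‖F v‖ ≤ B) (hG : ∀ w, ‖G w‖ ≤ B) (ha : ∀ w, |a w| ≤ B) (hb : ∀ w, |b w| ≤ B)
    (h : ∀ v w, ρ v w → a w ≤ G w (F v) - b w + c) :
    lim a Q ≤ fl G Q (wl F P) - lim b Q + c := by
  induction hPQ with
  | ret v w h1 => exact h v w h1
  | left f Q A hA _ ih =>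
    have h1 := (wlim_spec hE (fun n => wl F (f n)) hB (fun n => wl_norm_le hE hB hF (f n))).2
      (fl G Q)
    have h2 : Tendsto (fun n => fl G Q (wl F (f n)) - lim b Q + c) UU
        (𝓝 (fl G Q (wlim (fun n => wl F (f n))) - lim b Q + c)) :=
      (h1.sub_const _).add_const _
    exact ge_of_tendsto h2 (mem_of_superset hA ih)
  | right P g A hA _ ih =>
    have h1 := (flim_spec (fun n => fl G (g n)) hB (fun n => fl_norm_le hB hG (g n))).2 (wl F P)
    have h2 : Tendsto (fun n => lim b (g n)) UU (𝓝 (rlim (fun n => lim b (g n)))) :=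
      rlim_tendsto (fun n => lim_abs_le hb (g n))
    have h3 : Tendsto (fun n => lim a (g n)) UU (𝓝 (rlim (fun n => lim a (g n)))) :=
      rlim_tendsto (fun n => lim_abs_le ha (g n))
    have h4 : Tendsto (fun n => fl G (g n) (wl F P) - lim b (g n) + c) UU
        (𝓝 (flim (fun n => fl G (g n)) (wl F P) - rlim (fun n => lim b (g n)) + c)) :=
      (h1.sub h2).add_const _
    exact le_of_tendsto_of_tendsto h3 h4 (mem_of_superset hA ih)

/-- iterated limit of a functional evaluated at a fixed vector -/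
lemma lim_eval {W E : Type} [NormedAddCommGroup E] [NormedSpace ℝ E] (G : W → (E →L[ℝ] ℝ))
    {B : ℝ} (hB : 0 ≤ B) (hG : ∀ w, ‖G w‖ ≤ B) (y : E) (Q : Proc W) :
    lim (fun w => G w y) Q = fl G Q y := by
  induction Q with
  | ret w => rfl
  | draw g ih =>
    have h1 := (flim_spec (fun n => fl G (g n)) hB (fun n => fl_norm_le hB hG (g n))).2 y
    have h2 : (fun n => lim (fun w => G w y) (g n)) = fun n => fl G (g n) y := by
      funext n; exact ih n
    show rlim (fun n => lim (fun w => G w y) (g n)) = _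
    rw [h2]
    exact tendsto_nhds_unique (rlim_tendsto (B := B * ‖y‖) (fun n =>
      ((fl G (g n)).le_opNorm y).trans (mul_le_mul_of_nonneg_right (fl_norm_le hB hG (g n))
        (norm_nonneg _)))) h1

/-- Kalton type concentration: if a process is coupled with itself with small error, its image in
a reflexive space is concentrated -/
theorem concentration {V E : Type} [NormedAddCommGroup E] [NormedSpace ℝ E]
    (hE : Function.Surjective (NormedSpace.inclusionInDoubleDual ℝ E))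
    {ρ : V → V → Prop} {P : Proc V} (hPP : Cpl ρ P P) (F : V → E) {B c : ℝ}
    (hF : ∀ v, ‖F v‖ ≤ B) (hc : 0 < c) (h : ∀ v w, ρ v w → ‖F w - F v‖ ≤ c) :
    ∃ y : E, Most (fun v => ‖F v - y‖ < 2 * c) P := by
  classical
  obtain ⟨v0, _⟩ : ∃ v : V, True := by
    have : Most (fun _ : V => True) P := by
      clear hPP
      induction P with
      | ret v => trivial
      | draw f ih => exact Eventually.of_forall ih
    exact this.exists
  have hB : 0 ≤ B := (norm_nonneg _).trans (hF v0)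
  set y := wl F P with hy
  have hyB : ‖y‖ ≤ B := wl_norm_le hE hB hF P
  have hG : ∀ w : V, ∃ g : E →L[ℝ] ℝ, ‖g‖ ≤ 1 ∧ g (F w - y) = ‖F w - y‖ := by
    intro w
    obtain ⟨g, hg1, hg2⟩ := exists_dual_vector'' ℝ (F w - y)
    exact ⟨g, hg1, by simpa using hg2⟩
  choose G hG1 hG2 using hG
  set B' := 2 * B + 1 with hB'
  have hpair := pairing hE hPP F G (fun w => ‖F w - y‖) (fun w => G w y) (B := B') (c := c)
    (by positivity) (fun v => (hF v).trans (by linarith)) (fun w => (hG1 w).trans (by linarith))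
    (fun w => by
      rw [abs_of_nonneg (norm_nonneg _)]
      refine (norm_sub_le _ _).trans ?_
      linarith [hF w])
    (fun w => by
      refine ((G w).le_opNorm y).trans ?_
      nlinarith [hG1 w, norm_nonneg (G w), norm_nonneg y])
    (fun v w hvw => by
      show ‖F w - y‖ ≤ _
      rw [← hG2 w]
      have h1 : G w (F w - F v) ≤ c := by
        calc G w (F w - F v) ≤ ‖G w (F w - F v)‖ := le_abs_self _
          _ ≤ ‖G w‖ * ‖F w - F v‖ := (G w).le_opNorm _
          _ ≤ 1 * c := mul_le_mul (hG1 w) (h v w hvw) (norm_nonneg _) (by norm_num)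
          _ = c := one_mul c
      rw [map_sub] at h1 ⊢
      linarith)
  rw [lim_eval G (B := 1) (by norm_num) hG1 y P, ← hy] at hpair
  refine ⟨y, most_of_lim_lt (B := B') (fun w => ?_) P ?_⟩
  · rw [abs_of_nonneg (norm_nonneg _)]
    refine (norm_sub_le _ _).trans ?_
    linarith [hF w]
  · linarith


/-! ### the tree of jumps -/

section Tree

variable {X : Type} [NormedAddCommGroup X] [NormedSpace ℝ X] (x : ℕ → X) (ε : ℝ)

/-- nodes: finite lists of pairs of indices -/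
abbrev Node : Type := List (ℕ × ℕ)

/-- functionals of norm at most one with a jump at every pair of the node -/
def CC (t : Node) : Set (X →L[ℝ] ℝ) := {φ | ‖φ‖ ≤ 1 ∧ ∀ p ∈ t, ε ≤ φ (x p.1) - φ (x p.2)}

def Ext (t : Node) (p : ℕ × ℕ) : Prop :=
  (∀ q ∈ t, q.1 < p.1 ∧ q.1 < p.2 ∧ q.2 < p.1 ∧ q.2 < p.2) ∧ (CC x ε (p :: t)).Nonempty

/-- the tree relation -/
def TR (t' t : Node) : Prop := ∃ p, Ext x ε t p ∧ t' = p :: t

theorem wf_TR (hε : 0 < ε) (hx : ∀ φ : X →L[ℝ] ℝ, CauchySeq (fun n => φ (x n))) :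
    WellFounded (TR x ε) := by
  rw [wellFounded_iff_isEmpty_descending_chain]
  refine ⟨fun ⟨T, hT⟩ => ?_⟩
  choose p hp hTp using hT
  have hsub : ∀ i n, i < n → p i ∈ T n := by
    intro i n hin
    induction n with
    | zero => omega
    | succ n ih =>
      rw [hTp n]
      rcases Nat.lt_succ_iff_lt_or_eq.1 hin with h | h
      · exact List.mem_cons_of_mem _ (ih h)
      · rw [h]; exact List.mem_cons_self
  have hge : ∀ i, i ≤ (p i).1 ∧ i ≤ (p i).2 := by
    intro i
    induction i with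
    | zero => exact ⟨Nat.zero_le _, Nat.zero_le _⟩
    | succ i ih =>
      have := (hp (i + 1)).1 (p i) (hsub i (i + 1) (Nat.lt_succ_self i))
      omega
  have hφ : ∀ n, ∃ φ : X →L[ℝ] ℝ, φ ∈ CC x ε (T (n + 1)) := by
    intro n
    rw [hTp n]
    exact (hp n).2
  choose φ hφ using hφ
  obtain ⟨_, hlim⟩ := flim_spec φ (B := 1) (by norm_num) (fun n => (hφ n).1)
  set ℓ := flim φ with hℓ
  have hjump : ∀ i, ε ≤ ℓ (x (p i).1) - ℓ (x (p i).2) := by
    intro i
    have h1 := (hlim (x (p i).1)).sub (hlim (x (p i).2))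
    refine ge_of_tendsto h1 ?_
    filter_upwards [UU_gt i] with n hn
    exact (hφ n).2 (p i) (hsub i (n + 1) (by omega))
  obtain ⟨N, hN⟩ := Metric.cauchySeq_iff.1 (hx ℓ) ε hε
  have h2 := hN (p N).1 (hge N).1 (p N).2 (hge N).2
  rw [Real.dist_eq, abs_lt] at h2
  linarith [hjump N, h2.2]

open Classical in
/-- one-step extensions with entries at most `m` -/
noncomputable def nxt (S : Finset Node) (m : ℕ) : Finset Node :=
  ((S ×ˢ (Finset.range (m + 1) ×ˢ Finset.range (m + 1))).filter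
    (fun q => Ext x ε q.1 q.2)).image (fun q => q.2 :: q.1)

lemma mem_nxt {S : Finset Node} {m : ℕ} {t' : Node} : t' ∈ nxt x ε S m ↔
    ∃ t ∈ S, ∃ p : ℕ × ℕ, p.1 ≤ m ∧ p.2 ≤ m ∧ Ext x ε t p ∧ t' = p :: t := by
  classical
  unfold nxt
  rw [Finset.mem_image]
  constructor
  · rintro ⟨⟨t, p⟩, h, rfl⟩
    rw [Finset.mem_filter, Finset.mem_product, Finset.mem_product, Finset.mem_range,
      Finset.mem_range] at h
    obtain ⟨⟨h1, h2, h3⟩, h4⟩ := h
    exact ⟨t, h1, p, Nat.lt_succ_iff.1 h2, Nat.lt_succ_iff.1 h3, h4, rfl⟩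
  · rintro ⟨t, ht, p, h1, h2, h3, rfl⟩
    refine ⟨(t, p), ?_, rfl⟩
    rw [Finset.mem_filter, Finset.mem_product, Finset.mem_product, Finset.mem_range,
      Finset.mem_range]
    exact ⟨⟨ht, Nat.lt_succ_iff.2 h1, Nat.lt_succ_iff.2 h2⟩, h3⟩

lemma nxt_mono {S S' : Finset Node} (h : S ⊆ S') {m m' : ℕ} (hm : m ≤ m') :
    nxt x ε S m ⊆ nxt x ε S' m' := by
  intro t ht
  rw [mem_nxt] at ht ⊢
  obtain ⟨t0, ht0, p, h1, h2, h3, h4⟩ := ht
  exact ⟨t0, h ht0, p, h1.trans hm, h2.trans hm, h3, h4⟩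

/-- the rank of a finite set of nodes -/
noncomputable def rho (hwf : WellFounded (TR x ε)) (S : Finset Node) : Ordinal.{0} :=
  S.sup (fun t => Order.succ ((hwf.apply t).rank))

lemma rho_lt (hwf : WellFounded (TR x ε)) (S : Finset Node) (hS : S.Nonempty) (m : ℕ) :
    rho x ε hwf (nxt x ε S m) < rho x ε hwf S := by
  have key : ∀ t ∈ S, Order.succ ((hwf.apply t).rank) ≤ rho x ε hwf S := fun t ht =>
    Finset.le_sup (f := fun t => Order.succ ((hwf.apply t).rank)) ht
  obtain ⟨t0, ht0⟩ := hS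
  unfold rho
  rw [Finset.sup_lt_iff]
  · intro t' ht'
    rw [mem_nxt] at ht'
    obtain ⟨t, ht, p, _, _, h3, h4⟩ := ht'
    have h5 : (hwf.apply t').rank < (hwf.apply t).rank := Acc.rank_lt_of_rel (hwf.apply t) ⟨p, h3, h4⟩
    calc Order.succ ((hwf.apply t').rank) ≤ (hwf.apply t).rank := Order.succ_le_of_lt h5
      _ < Order.succ ((hwf.apply t).rank) := Order.lt_succ _
      _ ≤ _ := key t ht
  · exact lt_of_lt_of_le (lt_of_le_of_lt bot_le (Order.lt_succ ((hwf.apply t0).rank))) (key t0 ht0)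

/-- weighted finite sequences of indices -/
abbrev Wt : Type := List (ℕ × ℝ)

/-- run a list of processes one after the other, collecting the results -/
def seqA : List (Proc Wt) → Wt → Proc Wt
  | [], acc => ret acc
  | Q :: L, acc => Q.bind (fun f => seqA L (acc ++ f))

lemma seqA_acc (L : List (Proc Wt)) : ∀ acc : Wt,
    seqA L acc = (seqA L []).bind (fun g => ret (acc ++ g)) := by
  induction L with
  | nil => intro acc; simp [seqA, Proc.bind]
  | cons Q L ih =>
    intro acc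
    simp only [seqA, List.nil_append]
    rw [bind_assoc]
    congr 1
    funext f
    rw [ih (acc ++ f), ih f, bind_assoc]
    congr 1
    funext g
    simp [Proc.bind]

lemma seqA_append (L1 L2 : List (Proc Wt)) : ∀ acc : Wt,
    seqA (L1 ++ L2) acc = (seqA L1 []).bind (fun g => seqA L2 (acc ++ g)) := by
  induction L1 with
  | nil => intro acc; simp [seqA, Proc.bind]
  | cons Q L ih =>
    intro acc
    simp only [seqA, List.cons_append, List.nil_append]
    rw [bind_assoc]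
    congr 1
    funext f
    rw [ih (acc ++ f), seqA_acc L f, bind_assoc]
    congr 1
    funext g
    simp [Proc.bind]

/-- the basic process attached to a finite set of nodes and a weight -/
noncomputable def PP (hwf : WellFounded (TR x ε)) (S : Finset Node) (w : ℝ) : Proc Wt :=
  open Classical in
  if h : S.Nonempty then
    draw (fun n => seqA (List.replicate (n + 1)
      (draw (fun m => PP hwf (nxt x ε S m) (w / (n + 1))))) [])
  else draw (fun a => ret [(a, w)])
termination_by rho x ε hwf S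
decreasing_by exact rho_lt x ε hwf S h m

/-- the delayed process -/
noncomputable def RR (hwf : WellFounded (TR x ε)) (S : Finset Node) (w : ℝ) : Proc Wt :=
  draw (fun m => PP x ε hwf (nxt x ε S m) w)

variable (hwf : WellFounded (TR x ε))

lemma PP_of_nonempty (S : Finset Node) (hS : S.Nonempty) (w : ℝ) :
    PP x ε hwf S w = draw (fun n : ℕ => seqA (List.replicate (n + 1)
      (RR x ε hwf S (w / (n + 1)))) []) := by
  rw [PP, dif_pos hS]
  rfl

lemma PP_of_empty (S : Finset Node) (hS : ¬ S.Nonempty) (w : ℝ) :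
    PP x ε hwf S w = draw (fun a => ret [(a, w)]) := by
  rw [PP, dif_neg hS]

/-- total weight -/
def mass (f : Wt) : ℝ := (f.map Prod.snd).sum

/-- basic property of a result: nonnegative weights, indices beyond `N`, total weight `w` -/
def Bp (N : ℕ) (w : ℝ) (f : Wt) : Prop := (∀ p ∈ f, 0 ≤ p.2 ∧ N < p.1) ∧ mass f = w

lemma Bp_nil (N : ℕ) : Bp N 0 [] := ⟨by simp, by simp [mass]⟩

lemma Bp.append {N : ℕ} {w w' : ℝ} {f g : Wt} (hf : Bp N w f) (hg : Bp N w' g) :
    Bp N (w + w') (f ++ g) := by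
  refine ⟨?_, ?_⟩
  · intro p hp
    rcases List.mem_append.1 hp with h | h
    · exact hf.1 p h
    · exact hg.1 p h
  · have h1 := hf.2
    have h2 := hg.2
    unfold mass at *
    rw [List.map_append, List.sum_append, h1, h2]

lemma most_seqA (N : ℕ) (LW : List (ℝ × Proc Wt)) (h : ∀ q ∈ LW, Most (Bp N q.1) q.2) :
    ∀ (c : ℝ) (acc : Wt), Bp N c acc →
      Most (Bp N (c + (LW.map Prod.fst).sum)) (seqA (LW.map Prod.snd) acc) := by
  induction LW with
  | nil => intro c acc hacc; simpa [seqA, Most] using hacc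
  | cons q L ih =>
    intro c acc hacc
    simp only [List.map_cons, seqA, List.sum_cons]
    refine Most.bind (h q List.mem_cons_self) (fun f hf => ?_)
    have := ih (fun q' hq' => h q' (List.mem_cons_of_mem _ hq')) (c + q.1) (acc ++ f)
      (hacc.append hf)
    rwa [add_assoc] at this

lemma most_replicate (N k : ℕ) (κ : ℝ) (Q : Proc Wt) (h : Most (Bp N κ) Q) (c : ℝ) (acc : Wt)
    (hacc : Bp N c acc) : Most (Bp N (c + k * κ)) (seqA (List.replicate k Q) acc) := by
  have := most_seqA N (List.replicate k (κ, Q)) (by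
    intro q hq
    rw [List.eq_of_mem_replicate hq]; exact h) c acc hacc
  simpa using this

lemma most_PP (N : ℕ) : ∀ (o : Ordinal.{0}) (S : Finset Node), rho x ε hwf S = o →
    ∀ w : ℝ, 0 ≤ w → Most (Bp N w) (PP x ε hwf S w) := by
  intro o
  induction o using WellFoundedLT.induction with
  | ind o ih =>
    intro S hS w hw
    by_cases hne : S.Nonempty
    · rw [PP_of_nonempty x ε hwf S hne]
      show ∀ᶠ n in UU, Most (Bp N w) _
      refine Eventually.of_forall (fun n => ?_)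
      have hn : (0 : ℝ) < (n : ℝ) + 1 := by positivity
      have h1 : Most (Bp N (w / (n + 1))) (RR x ε hwf S (w / (n + 1))) := by
        show ∀ᶠ m in UU, Most _ _
        refine Eventually.of_forall (fun m => ?_)
        exact ih _ (hS ▸ rho_lt x ε hwf S hne m) _ rfl _ (by positivity)
      have h2 := most_replicate N (n + 1) _ _ h1 0 [] (Bp_nil N)
      have h3 : (0 : ℝ) + ((n + 1 : ℕ) : ℝ) * (w / (n + 1)) = w := by
        push_cast; field_simp; ring
      rwa [h3] at h2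
    · rw [PP_of_empty x ε hwf S hne]
      show ∀ᶠ a in UU, Bp N w [(a, w)]
      filter_upwards [UU_gt N] with a ha
      exact ⟨by simp [hw, ha], by simp [mass]⟩

lemma most_PP' (N : ℕ) (S : Finset Node) (w : ℝ) (hw : 0 ≤ w) :
    Most (Bp N w) (PP x ε hwf S w) := most_PP x ε hwf N _ S rfl w hw

lemma most_RR (N : ℕ) (S : Finset Node) (w : ℝ) (hw : 0 ≤ w) :
    Most (Bp N w) (RR x ε hwf S w) :=
  Eventually.of_forall (fun _ => most_PP' x ε hwf N _ w hw)

/-- admissible partner processes -/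
def Dom (S : Finset Node) (w : ℝ) (Q : Proc Wt) : Prop :=
  0 ≤ w ∧ ((∃ S', S ⊆ S' ∧ Q = PP x ε hwf S' w) ∨
    (∃ S', (∀ᶠ m in UU, S ⊆ nxt x ε S' m) ∧ Q = RR x ε hwf S' w))

lemma Dom.most {S : Finset Node} {w : ℝ} {Q : Proc Wt} (h : Dom x ε hwf S w Q) (N : ℕ) :
    Most (Bp N w) Q := by
  obtain ⟨hw, ⟨S', _, rfl⟩ | ⟨S', _, rfl⟩⟩ := h
  · exact most_PP' x ε hwf N S' w hw
  · exact most_RR x ε hwf N S' w hw

/-- evaluation of a functional -/
def ev (φ : X →L[ℝ] ℝ) (f : Wt) : ℝ := (f.map (fun p => p.2 * φ (x p.1))).sum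

lemma ev_append (φ : X →L[ℝ] ℝ) (f g : Wt) : ev x φ (f ++ g) = ev x φ f + ev x φ g := by
  simp [ev]

lemma ev_le {φ : X →L[ℝ] ℝ} {f : Wt} {c : ℝ} (hf : ∀ p ∈ f, 0 ≤ p.2)
    (h : ∀ p ∈ f, φ (x p.1) ≤ c) : ev x φ f ≤ c * mass f := by
  induction f with
  | nil => simp [ev, mass]
  | cons p f ih =>
    have h1 := ih (fun q hq => hf q (List.mem_cons_of_mem _ hq))
      (fun q hq => h q (List.mem_cons_of_mem _ hq))
    have h2 := mul_le_mul_of_nonneg_left (h p List.mem_cons_self) (hf p List.mem_cons_self)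
    simp only [ev, mass, List.map_cons, List.sum_cons] at h1 ⊢
    linarith

lemma le_ev {φ : X →L[ℝ] ℝ} {f : Wt} {c : ℝ} (hf : ∀ p ∈ f, 0 ≤ p.2)
    (h : ∀ p ∈ f, c ≤ φ (x p.1)) : c * mass f ≤ ev x φ f := by
  induction f with
  | nil => simp [ev, mass]
  | cons p f ih =>
    have h1 := ih (fun q hq => hf q (List.mem_cons_of_mem _ hq))
      (fun q hq => h q (List.mem_cons_of_mem _ hq))
    have h2 := mul_le_mul_of_nonneg_left (h p List.mem_cons_self) (hf p List.mem_cons_self)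
    simp only [ev, mass, List.map_cons, List.sum_cons] at h1 ⊢
    linarith

lemma mass_nonneg {f : Wt} (hf : ∀ p ∈ f, 0 ≤ p.2) : 0 ≤ mass f := by
  unfold mass
  apply List.sum_nonneg
  intro a ha
  obtain ⟨p, hp, rfl⟩ := List.mem_map.1 ha
  exact hf p hp

variable {x ε} in
lemma abs_phi_le (hb : ∀ n, ‖x n‖ ≤ 1) {φ : X →L[ℝ] ℝ} (hφ : ‖φ‖ ≤ 1) (n : ℕ) :
    |φ (x n)| ≤ 1 := by
  have h1 := φ.le_opNorm (x n)
  rw [Real.norm_eq_abs] at h1
  calc |φ (x n)| ≤ ‖φ‖ * ‖x n‖ := h1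
    _ ≤ 1 * 1 := mul_le_mul hφ (hb n) (norm_nonneg _) (by norm_num)
    _ = 1 := by norm_num

variable {x ε} in
lemma abs_ev_le (hb : ∀ n, ‖x n‖ ≤ 1) {φ : X →L[ℝ] ℝ} (hφ : ‖φ‖ ≤ 1) {f : Wt}
    (hf : ∀ p ∈ f, 0 ≤ p.2) : |ev x φ f| ≤ mass f := by
  rw [abs_le]
  constructor
  · have := le_ev x (φ := φ) (c := -1) hf (fun p _ => (abs_le.1 (abs_phi_le hb hφ p.1)).1)
    linarith
  · have := ev_le x (φ := φ) (c := 1) hf (fun p _ => (abs_le.1 (abs_phi_le hb hφ p.1)).2)
    linarith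

variable {x ε} in
/-- two blocks without a jump between them -/
lemma ev_block (hb : ∀ n, ‖x n‖ ≤ 1) {φ : X →L[ℝ] ℝ} (hφ : ‖φ‖ ≤ 1) {f g : Wt}
    (hf : ∀ p ∈ f, 0 ≤ p.2) (hg : ∀ p ∈ g, 0 ≤ p.2) (hm : mass g ≤ mass f) (hε : 0 ≤ ε)
    (h : ∀ p ∈ f, ∀ q ∈ g, φ (x p.1) - φ (x q.1) ≤ ε) :
    ev x φ f - ev x φ g ≤ ε * mass f + (mass f - mass g) := by
  have hf0 := mass_nonneg hf
  by_cases hg0 : g = []
  · subst hg0
    have h1 := (abs_le.1 (abs_ev_le hb hφ hf)).2
    have h2 : ev x φ [] = 0 := by simp [ev]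
    have h3 : mass [] = 0 := by simp [mass]
    rw [h2, h3]
    nlinarith
  · obtain ⟨q0, hq0, hmin⟩ : ∃ q0 ∈ g, ∀ q ∈ g, φ (x q0.1) ≤ φ (x q.1) := by
      obtain ⟨q0, hq0, hmin⟩ := List.toFinset (g.map (fun q => φ (x q.1))) |>.exists_min_image id
        (by
          obtain ⟨a, l, rfl⟩ := List.exists_cons_of_ne_nil hg0
          exact ⟨φ (x a.1), by simp⟩)
      rw [List.mem_toFinset, List.mem_map] at hq0
      obtain ⟨q1, hq1, rfl⟩ := hq0
      refine ⟨q1, hq1, fun q hq => ?_⟩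
      apply hmin
      rw [List.mem_toFinset, List.mem_map]
      exact ⟨q, hq, rfl⟩
    set s := φ (x q0.1) with hs
    have h1 := ev_le x (φ := φ) (c := s + ε) hf (fun p hp => by
      have := h p hp q0 hq0
      linarith)
    have h2 := le_ev x (φ := φ) (c := s) hg hmin
    have h3 : s ≤ 1 := (abs_le.1 (abs_phi_le hb hφ q0.1)).2
    have h4 : s * (mass f - mass g) ≤ 1 * (mass f - mass g) :=
      mul_le_mul_of_nonneg_right h3 (by linarith)
    nlinarith

end Tree

/-! ### the coupling -/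

section Coupling

variable {X : Type} [NormedAddCommGroup X] [NormedSpace ℝ X] (x : ℕ → X) (ε : ℝ)
variable (hwf : WellFounded (TR x ε))

/-- the invariant of the coupling -/
def Inv (S : Finset Node) (N : ℕ) (κ E cF cG : ℝ) (F G : Wt) : Prop :=
  Bp N cF F ∧ Bp N cG G ∧ ∀ t ∈ S, ∀ φ ∈ CC x ε t,
    ev x φ F - ev x φ G ≤ E ∨
    ((∃ p ∈ F, ∃ q ∈ G, ε ≤ φ (x p.1) - φ (x q.1)) ∧ ev x φ F - ev x φ G ≤ E + 2 * κ)

/-- the coupling claim -/
def KK (S : Finset Node) : Prop := ∀ (w δ : ℝ) (LW : List (ℝ × Proc Wt)), 0 < w → 0 < δ →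
  (∀ q ∈ LW, Dom x ε hwf S q.1 q.2) → (LW.map Prod.fst).sum ≤ w →
  Cpl (fun f g => ∀ t ∈ S, ∀ φ ∈ CC x ε t,
      ev x φ f - ev x φ g ≤ ε * w + δ + (w - (LW.map Prod.fst).sum))
    (PP x ε hwf S w) (seqA (LW.map Prod.snd) [])

variable {x ε} {hwf}

lemma block (hb : ∀ n, ‖x n‖ ≤ 1) (hε : 0 ≤ ε) {S : Finset Node} {N : ℕ}
    (hN : ∀ t ∈ S, ∀ q ∈ t, q.1 ≤ N ∧ q.2 ≤ N)
    (hK : ∀ m, KK x ε hwf (nxt x ε S m)) {κ δ₁ : ℝ} (hκ : 0 < κ) (hδ₁ : 0 < δ₁)
    (LW : List (ℝ × Proc Wt)) (hLW : ∀ q ∈ LW, ∀ m, Dom x ε hwf (nxt x ε S m) q.1 q.2)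
    (hsum : (LW.map Prod.fst).sum ≤ κ) {E cF cG : ℝ} {F G : Wt}
    (hInv : Inv x ε S N κ E cF cG F G) :
    Cpl (fun f g => Inv x ε S N κ (E + (ε * κ + δ₁ + (κ - (LW.map Prod.fst).sum))) (cF + κ)
        (cG + (LW.map Prod.fst).sum) (F ++ f) (G ++ g))
      (RR x ε hwf S κ) (seqA (LW.map Prod.snd) []) := by
  obtain ⟨M, hM⟩ : ∃ M : ℕ, ∀ p ∈ F ++ G, p.1 ≤ M := by
    refine ⟨((F ++ G).map Prod.fst).sum, fun p hp => ?_⟩
    exact List.le_sum_of_mem (List.mem_map_of_mem hp)
  unfold RR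
  apply Cpl.leftE
  filter_upwards [UU_gt M] with m hm
  have h1 := hK m κ δ₁ LW hκ hδ₁ (fun q hq => hLW q hq m) hsum
  have h2 := h1.and_most (most_PP' x ε hwf N (nxt x ε S m) κ hκ.le)
    (most_seqA N LW (fun q hq => (hLW q hq m).most x ε hwf N) 0 [] (Bp_nil N))
  refine h2.mono ?_
  rintro f g ⟨hest, hf, hg⟩
  rw [zero_add] at hg
  have hf0 : ∀ p ∈ f, 0 ≤ p.2 := fun p hp => (hf.1 p hp).1
  have hg0 : ∀ p ∈ g, 0 ≤ p.2 := fun p hp => (hg.1 p hp).1
  set s := (LW.map Prod.fst).sum with hs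
  have hs0 : 0 ≤ s := by rw [← hg.2]; exact mass_nonneg hg0
  refine ⟨hInv.1.append hf, hInv.2.1.append hg, ?_⟩
  intro t ht φ hφ
  rw [ev_append, ev_append]
  have hεκ : 0 ≤ ε * κ := mul_nonneg hε hκ.le
  rcases hInv.2.2 t ht φ hφ with hA | ⟨⟨p, hp, q, hq, hj⟩, hB⟩
  · by_cases hjump : ∃ p ∈ f, ∃ q ∈ g, ε ≤ φ (x p.1) - φ (x q.1)
    · right
      obtain ⟨p, hp, q, hq, hj⟩ := hjump
      refine ⟨⟨p, List.mem_append_right _ hp, q, List.mem_append_right _ hq, hj⟩, ?_⟩
      have h3 := (abs_le.1 (abs_ev_le hb hφ.1 hf0)).2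
      have h4 := (abs_le.1 (abs_ev_le hb hφ.1 hg0)).1
      rw [hf.2] at h3
      rw [hg.2] at h4
      linarith
    · left
      push Not at hjump
      have h3 := ev_block hb hφ.1 hf0 hg0 (by rw [hf.2, hg.2]; exact hsum) hε
        (fun p hp q hq => (hjump p hp q hq).le)
      rw [hf.2, hg.2] at h3
      linarith
  · right
    refine ⟨⟨p, List.mem_append_left _ hp, q, List.mem_append_left _ hq, hj⟩, ?_⟩
    have hpN := (hInv.1.1 p hp).2
    have hqN := (hInv.2.1.1 q hq).2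
    have hφ' : φ ∈ CC x ε ((p.1, q.1) :: t) := by
      refine ⟨hφ.1, ?_⟩
      intro r hr
      rcases List.mem_cons.1 hr with h | h
      · rw [h]; exact hj
      · exact hφ.2 r h
    have hnode : ((p.1, q.1) :: t) ∈ nxt x ε S m := by
      rw [mem_nxt]
      refine ⟨t, ht, (p.1, q.1), ?_, ?_, ⟨?_, ⟨φ, hφ'⟩⟩, rfl⟩
      · exact (hM p (List.mem_append_left _ hp)).trans hm.le
      · exact (hM q (List.mem_append_right _ hq)).trans hm.le
      · intro r hr
        have := hN t ht r hr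
        simp only
        omega
    have h3 := hest _ hnode φ hφ'
    linarith

lemma loop (hb : ∀ n, ‖x n‖ ≤ 1) (hε : 0 ≤ ε) {S : Finset Node} {N : ℕ}
    (hN : ∀ t ∈ S, ∀ q ∈ t, q.1 ≤ N ∧ q.2 ≤ N)
    (hK : ∀ m, KK x ε hwf (nxt x ε S m)) {κ δ₁ : ℝ} (hκ : 0 < κ) (hδ₁ : 0 < δ₁)
    (Q' : Proc Wt) (κ' : ℝ) (r : ℕ) (hQ' : ∀ m, Dom x ε hwf (nxt x ε S m) κ' Q')
    (hr : (r : ℝ) * κ' ≤ κ) (σ : Wt → Wt → Prop) (Rs rest : List (Proc Wt)) :
    ∀ (k : ℕ) (E cF cG : ℝ) (F G : Wt), Inv x ε S N κ E cF cG F G →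
    (∀ F' G', Inv x ε S N κ (E + k * (ε * κ + δ₁ + (κ - r * κ'))) (cF + k * κ)
      (cG + k * (r * κ')) F' G' → Cpl σ (seqA Rs F') (seqA rest G')) →
    Cpl σ (seqA (List.replicate k (RR x ε hwf S κ) ++ Rs) F)
      (seqA (List.replicate (k * r) Q' ++ rest) G) := by
  intro k
  induction k with
  | zero =>
    intro E cF cG F G hInv h
    simpa using h F G (by simpa using hInv)
  | succ k ih =>
    intro E cF cG F G hInv h
    have e1 : List.replicate (k + 1) (RR x ε hwf S κ) ++ Rs =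
        RR x ε hwf S κ :: (List.replicate k (RR x ε hwf S κ) ++ Rs) := by
      rw [List.replicate_succ, List.cons_append]
    have e2 : List.replicate ((k + 1) * r) Q' ++ rest =
        List.replicate r Q' ++ (List.replicate (k * r) Q' ++ rest) := by
      rw [← List.append_assoc, List.replicate_append_replicate]
      congr 2
      ring
    rw [e1, e2, seqA_append]
    simp only [seqA]
    have hblock := block hb hε hN hK hκ hδ₁ (List.replicate r (κ', Q')) (by
      intro q hq m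
      rw [List.eq_of_mem_replicate hq]
      exact hQ' m) (by simpa using hr) hInv
    have e3 : (List.map Prod.snd (List.replicate r (κ', Q'))) = List.replicate r Q' := by simp
    have e4 : (List.map Prod.fst (List.replicate r (κ', Q'))).sum = r * κ' := by simp
    rw [e3, e4] at hblock
    refine hblock.bind ?_
    intro f g hfg
    refine ih _ _ _ _ _ hfg ?_
    intro F' G' h'
    apply h F' G'
    have a1 : E + (ε * κ + δ₁ + (κ - r * κ')) + k * (ε * κ + δ₁ + (κ - r * κ')) =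
        E + ((k + 1 : ℕ) : ℝ) * (ε * κ + δ₁ + (κ - r * κ')) := by push_cast; ring
    have a2 : cF + κ + k * κ = cF + ((k + 1 : ℕ) : ℝ) * κ := by push_cast; ring
    have a3 : cG + r * κ' + k * (r * κ') = cG + ((k + 1 : ℕ) : ℝ) * (r * κ') := by push_cast; ring
    rw [a1, a2, a3] at h'
    exact h'

/-- adding a partner part of small mass -/
lemma Inv.add_right (hb : ∀ n, ‖x n‖ ≤ 1) {S : Finset Node} {N : ℕ} {κ E E' cF cG c : ℝ}
    {F G g : Wt} (h : Inv x ε S N κ E cF cG F G) (hg : Bp N c g) (hE : E + c ≤ E') :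
    Inv x ε S N κ E' cF (cG + c) F (G ++ g) := by
  refine ⟨h.1, h.2.1.append hg, ?_⟩
  intro t ht φ hφ
  rw [ev_append]
  have h1 := (abs_le.1 (abs_ev_le hb hφ.1 (fun p hp => (hg.1 p hp).1))).1
  rw [hg.2] at h1
  rcases h.2.2 t ht φ hφ with hA | ⟨⟨p, hp, q, hq, hj⟩, hB⟩
  · left; linarith
  · right
    exact ⟨⟨p, hp, q, List.mem_append_left _ hq, hj⟩, by linarith⟩

lemma itemPP (hb : ∀ n, ‖x n‖ ≤ 1) (hε : 0 ≤ ε) {S : Finset Node} (hS : S.Nonempty) {N : ℕ}
    (hN : ∀ t ∈ S, ∀ q ∈ t, q.1 ≤ N ∧ q.2 ≤ N)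
    (hK : ∀ m, KK x ε hwf (nxt x ε S m)) {κ δ₁ : ℝ} (hκ : 0 < κ) (hδ₁ : 0 < δ₁)
    (S' : Finset Node) (hSS' : S ⊆ S') (w : ℝ) (hw : 0 ≤ w)
    (σ : Wt → Wt → Prop) (Rs rest : List (Proc Wt)) {E cF cG : ℝ} {F G : Wt}
    (hInv : Inv x ε S N κ E cF cG F G)
    (h : ∀ F' G', Inv x ε S N κ (E + ⌊w / κ⌋₊ * (ε * κ + 3 * δ₁) + κ) (cF + ⌊w / κ⌋₊ * κ)
      (cG + w) F' G' → Cpl σ (seqA Rs F') (seqA rest G')) :
    Cpl σ (seqA (List.replicate ⌊w / κ⌋₊ (RR x ε hwf S κ) ++ Rs) F)
      (seqA (PP x ε hwf S' w :: rest) G) := by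
  set k := ⌊w / κ⌋₊ with hk
  have hk1 : (k : ℝ) * κ ≤ w := by
    rw [← le_div_iff₀ hκ]
    exact Nat.floor_le (by positivity)
  have hk2 : w < (k + 1) * κ := by
    rw [← div_lt_iff₀ hκ]
    exact Nat.lt_floor_add_one _
  by_cases hk0 : k = 0
  · rw [hk0] at hk2 h ⊢
    simp only [List.replicate_zero, List.nil_append, seqA]
    refine Cpl.soloR (most_PP' x ε hwf N S' w hw) ?_
    intro g hg
    apply h
    have h1 := hInv.add_right (E' := E + κ) hb hg (by simp at hk2; linarith)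
    simpa using h1
  · have hkpos : (1 : ℝ) ≤ k := by exact_mod_cast Nat.one_le_iff_ne_zero.2 hk0
    have hwpos : 0 < w := by nlinarith
    have hS' : S'.Nonempty := hS.mono hSS'
    rw [PP_of_nonempty x ε hwf S' hS']
    simp only [seqA, Proc.bind]
    apply Cpl.rightE
    obtain ⟨n0, hn0⟩ := exists_nat_gt (w / min δ₁ κ)
    filter_upwards [UU_gt n0] with n hn
    rw [← seqA_append]
    have hmin : 0 < min δ₁ κ := lt_min hδ₁ hκ
    have hn1 : (0 : ℝ) < (n : ℝ) + 1 := by positivity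
    set κ' := w / ((n : ℝ) + 1) with hκ'
    have hκ'pos : 0 < κ' := by positivity
    have hκ'le : κ' ≤ min δ₁ κ := by
      rw [hκ', div_le_iff₀ hn1]
      rw [div_lt_iff₀ hmin] at hn0
      have : (n0 : ℝ) ≤ (n : ℝ) + 1 := by
        have : (n0 : ℝ) < n := by exact_mod_cast hn
        linarith
      nlinarith
    have hκ'δ : κ' ≤ δ₁ := hκ'le.trans (min_le_left _ _)
    set r := ⌊κ / κ'⌋₊ with hr
    have hr1 : (r : ℝ) * κ' ≤ κ := by
      rw [← le_div_iff₀ hκ'pos]
      exact Nat.floor_le (by positivity)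
    have hr2 : κ < (r + 1) * κ' := by
      rw [← div_lt_iff₀ hκ'pos]
      exact Nat.lt_floor_add_one _
    have hwn : w = ((n : ℝ) + 1) * κ' := by rw [hκ']; field_simp
    have hkr : k * r ≤ n + 1 := by
      have h1 : ((k * r : ℕ) : ℝ) * κ' ≤ ((n + 1 : ℕ) : ℝ) * κ' := by
        push_cast
        rw [← hwn]
        calc (k : ℝ) * r * κ' = k * (r * κ') := by ring
          _ ≤ k * κ := mul_le_mul_of_nonneg_left hr1 (by positivity)
          _ ≤ w := hk1
      exact_mod_cast le_of_mul_le_mul_right h1 hκ'pos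
    obtain ⟨e, he⟩ : ∃ e, n + 1 = k * r + e := ⟨n + 1 - k * r, by omega⟩
    have hrep : List.replicate (n + 1) (RR x ε hwf S' κ') ++ rest =
        List.replicate (k * r) (RR x ε hwf S' κ') ++
          (List.replicate e (RR x ε hwf S' κ') ++ rest) := by
      rw [← List.append_assoc, List.replicate_append_replicate, he]
    rw [hrep]
    refine loop hb hε hN hK hκ hδ₁ (RR x ε hwf S' κ') κ' r ?_ hr1 σ Rs _ k E cF cG F G hInv ?_
    · intro m
      refine ⟨hκ'pos.le, Or.inr ⟨S', ?_, rfl⟩⟩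
      filter_upwards [UU_gt m] with m' hm'
      exact nxt_mono x ε hSS' hm'.le
    · intro F' G' hInv'
      rw [seqA_append]
      refine Cpl.soloR (most_replicate N e κ' _ (most_RR x ε hwf N S' κ' hκ'pos.le) 0 []
        (Bp_nil N)) ?_
      intro g hg
      rw [zero_add] at hg
      apply h
      have hecast : (n : ℝ) + 1 = k * r + e := by exact_mod_cast he
      have hbound : E + k * (ε * κ + δ₁ + (κ - r * κ')) + e * κ' ≤
          E + k * (ε * κ + 3 * δ₁) + κ := by
        have h1 : (e : ℝ) * κ' = w - k * (r * κ') := by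
          rw [hwn, hecast]; ring
        have h2 : κ - r * κ' ≤ δ₁ := by nlinarith
        have h3 : (k : ℝ) * (κ - r * κ') ≤ k * δ₁ := mul_le_mul_of_nonneg_left h2 (by positivity)
        rw [h1]
        nlinarith
      have h1 := hInv'.add_right (E' := E + k * (ε * κ + 3 * δ₁) + κ) hb hg hbound
      have h2 : cG + k * (r * κ') + e * κ' = cG + w := by
        rw [hwn, hecast]; ring
      rw [h2] at h1
      exact h1

lemma item (hb : ∀ n, ‖x n‖ ≤ 1) (hε : 0 ≤ ε) {S : Finset Node} (hS : S.Nonempty) {N : ℕ}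
    (hN : ∀ t ∈ S, ∀ q ∈ t, q.1 ≤ N ∧ q.2 ≤ N)
    (hK : ∀ m, KK x ε hwf (nxt x ε S m)) {κ δ₁ : ℝ} (hκ : 0 < κ) (hδ₁ : 0 < δ₁)
    (w : ℝ) (Q : Proc Wt) (hQ : Dom x ε hwf S w Q)
    (σ : Wt → Wt → Prop) (Rs rest : List (Proc Wt)) {E cF cG : ℝ} {F G : Wt}
    (hInv : Inv x ε S N κ E cF cG F G)
    (h : ∀ F' G', Inv x ε S N κ (E + ⌊w / κ⌋₊ * (ε * κ + 3 * δ₁) + κ) (cF + ⌊w / κ⌋₊ * κ)
      (cG + w) F' G' → Cpl σ (seqA Rs F') (seqA rest G')) :
    Cpl σ (seqA (List.replicate ⌊w / κ⌋₊ (RR x ε hwf S κ) ++ Rs) F) (seqA (Q :: rest) G) := by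
  obtain ⟨hw, ⟨S', hSS', rfl⟩ | ⟨S', hSS', rfl⟩⟩ := hQ
  · exact itemPP hb hε hS hN hK hκ hδ₁ S' hSS' w hw σ Rs rest hInv h
  · simp only [seqA, RR, Proc.bind]
    apply Cpl.rightE
    filter_upwards [hSS'] with m hm
    exact itemPP hb hε hS hN hK hκ hδ₁ _ hm w hw σ Rs rest hInv h

/-- number of blocks used by a list of partners -/
noncomputable def nt (κ : ℝ) (LW : List (ℝ × Proc Wt)) : ℕ := (LW.map (fun q => ⌊q.1 / κ⌋₊)).sum

lemma items (hb : ∀ n, ‖x n‖ ≤ 1) (hε : 0 ≤ ε) {S : Finset Node} (hS : S.Nonempty) {N : ℕ}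
    (hN : ∀ t ∈ S, ∀ q ∈ t, q.1 ≤ N ∧ q.2 ≤ N)
    (hK : ∀ m, KK x ε hwf (nxt x ε S m)) {κ δ₁ : ℝ} (hκ : 0 < κ) (hδ₁ : 0 < δ₁)
    (σ : Wt → Wt → Prop) (Rs : List (Proc Wt)) :
    ∀ (LW : List (ℝ × Proc Wt)) (_ : ∀ q ∈ LW, Dom x ε hwf S q.1 q.2)
      (E cF cG : ℝ) (F G : Wt), Inv x ε S N κ E cF cG F G →
    (∀ F' G', Inv x ε S N κ (E + nt κ LW * (ε * κ + 3 * δ₁) + LW.length * κ)
      (cF + nt κ LW * κ) (cG + (LW.map Prod.fst).sum) F' G' → Cpl σ (seqA Rs F') (ret G')) →
    Cpl σ (seqA (List.replicate (nt κ LW) (RR x ε hwf S κ) ++ Rs) F)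
      (seqA (LW.map Prod.snd) G) := by
  intro LW
  induction LW with
  | nil =>
    intro _ E cF cG F G hInv h
    have := h F G (by simpa [nt] using hInv)
    simpa [nt, seqA] using this
  | cons q LW ih =>
    intro hLW E cF cG F G hInv h
    have e1 : nt κ (q :: LW) = ⌊q.1 / κ⌋₊ + nt κ LW := by simp [nt]
    rw [e1, ← List.replicate_append_replicate, List.append_assoc, List.map_cons]
    refine item hb hε hS hN hK hκ hδ₁ q.1 q.2 (hLW q List.mem_cons_self) σ _ _ hInv ?_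
    intro F' G' hInv'
    refine ih (fun q' hq' => hLW q' (List.mem_cons_of_mem _ hq')) _ _ _ F' G' hInv' ?_
    intro F'' G'' hInv''
    apply h F'' G''
    have a1 : E + ⌊q.1 / κ⌋₊ * (ε * κ + 3 * δ₁) + κ + nt κ LW * (ε * κ + 3 * δ₁) +
        LW.length * κ = E + (nt κ (q :: LW) : ℝ) * (ε * κ + 3 * δ₁) +
        ((q :: LW).length : ℝ) * κ := by
      rw [e1, List.length_cons]; push_cast; ring
    have a2 : cF + ⌊q.1 / κ⌋₊ * κ + nt κ LW * κ = cF + (nt κ (q :: LW) : ℝ) * κ := by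
      rw [e1]; push_cast; ring
    have a3 : cG + q.1 + (LW.map Prod.fst).sum = cG + ((q :: LW).map Prod.fst).sum := by
      rw [List.map_cons, List.sum_cons]; ring
    rw [a1, a2, a3] at hInv''
    exact hInv''

lemma Cpl.trivial {V W : Type} (P : Proc V) (Q : Proc W) : Cpl (fun _ _ => True) P Q := by
  induction P with
  | ret v =>
    induction Q with
    | ret w => exact Cpl.ret v w True.intro
    | draw g ih => exact Cpl.rightE (Eventually.of_forall ih)
  | draw f ih => exact Cpl.leftE (Eventually.of_forall ih)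

lemma nt_bounds {κ : ℝ} (hκ : 0 < κ) (LW : List (ℝ × Proc Wt)) (h : ∀ q ∈ LW, 0 ≤ q.1) :
    (nt κ LW : ℝ) * κ ≤ (LW.map Prod.fst).sum ∧
      (LW.map Prod.fst).sum ≤ nt κ LW * κ + LW.length * κ := by
  induction LW with
  | nil => simp [nt]
  | cons q LW ih =>
    have h1 := ih (fun q' hq' => h q' (List.mem_cons_of_mem _ hq'))
    have h2 : (⌊q.1 / κ⌋₊ : ℝ) * κ ≤ q.1 := by
      rw [← le_div_iff₀ hκ]
      exact Nat.floor_le (div_nonneg (h q List.mem_cons_self) hκ.le)
    have h3 : q.1 ≤ (⌊q.1 / κ⌋₊ + 1) * κ := by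
      rw [← div_le_iff₀ hκ]
      exact (Nat.lt_floor_add_one _).le
    have e1 : nt κ (q :: LW) = ⌊q.1 / κ⌋₊ + nt κ LW := by simp [nt]
    rw [e1, List.map_cons, List.sum_cons, List.length_cons]
    push_cast
    constructor <;> nlinarith [h1.1, h1.2]

theorem KK_all (hb : ∀ n, ‖x n‖ ≤ 1) (hε : 0 ≤ ε) : ∀ (o : Ordinal.{0}) (S : Finset Node),
    rho x ε hwf S = o → KK x ε hwf S := by
  intro o
  induction o using WellFoundedLT.induction with
  | ind o ih =>
    intro S hSo w δ LW hw hδ hLW hsum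
    by_cases hS : S.Nonempty
    · have hK : ∀ m, KK x ε hwf (nxt x ε S m) := fun m =>
        ih _ (hSo ▸ rho_lt x ε hwf S hS m) _ rfl
      obtain ⟨N, hN⟩ : ∃ N : ℕ, ∀ t ∈ S, ∀ q ∈ t, q.1 ≤ N ∧ q.2 ≤ N := by
        refine ⟨∑ t ∈ S, (t.map (fun q => q.1 + q.2)).sum, fun t ht q hq => ?_⟩
        have h1 : q.1 + q.2 ≤ (t.map (fun q => q.1 + q.2)).sum :=
          List.le_sum_of_mem (List.mem_map_of_mem hq)
        have h2 : (t.map (fun q => q.1 + q.2)).sum ≤ ∑ t ∈ S, (t.map (fun q => q.1 + q.2)).sum :=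
          Finset.single_le_sum (f := fun t : Node => (t.map (fun q => q.1 + q.2)).sum)
            (fun _ _ => Nat.zero_le _) ht
        omega
      rw [PP_of_nonempty x ε hwf S hS]
      apply Cpl.leftE
      obtain ⟨n0, hn0⟩ := exists_nat_gt (2 * (2 * LW.length + 2) * w / δ)
      filter_upwards [UU_gt n0] with n hn
      have hn1 : (0 : ℝ) < (n : ℝ) + 1 := by positivity
      set κ := w / ((n : ℝ) + 1) with hκ
      have hκpos : 0 < κ := by positivity
      have hwn : w = ((n : ℝ) + 1) * κ := by rw [hκ]; field_simp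
      have hκδ : (2 * (LW.length : ℝ) + 2) * κ ≤ δ / 2 := by
        rw [div_lt_iff₀ hδ] at hn0
        rw [hκ, mul_div_assoc', div_le_iff₀ hn1]
        have : (n0 : ℝ) < n := by exact_mod_cast hn
        nlinarith
      set δ₁ := δ / (6 * ((n : ℝ) + 1)) with hδ₁
      have hδ₁pos : 0 < δ₁ := by positivity
      have hδ₁eq : 3 * ((n : ℝ) + 1) * δ₁ = δ / 2 := by rw [hδ₁]; field_simp; ring
      obtain ⟨hnt1, hnt2⟩ := nt_bounds hκpos LW (fun q hq => (hLW q hq).1)
      have hntle : nt κ LW ≤ n + 1 := by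
        have h1 : (nt κ LW : ℝ) * κ ≤ ((n + 1 : ℕ) : ℝ) * κ := by
          push_cast; rw [← hwn]; exact hnt1.trans hsum
        exact_mod_cast le_of_mul_le_mul_right h1 hκpos
      obtain ⟨e, he⟩ : ∃ e, n + 1 = nt κ LW + e := ⟨n + 1 - nt κ LW, by omega⟩
      have hecast : (n : ℝ) + 1 = nt κ LW + e := by exact_mod_cast he
      have hrep : List.replicate (n + 1) (RR x ε hwf S κ) =
          List.replicate (nt κ LW) (RR x ε hwf S κ) ++ List.replicate e (RR x ε hwf S κ) := by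
        rw [List.replicate_append_replicate, he]
      rw [hrep]
      refine items hb hε hS hN hK hκpos hδ₁pos _ _ LW hLW 0 0 0 [] [] ?_ ?_
      · refine ⟨Bp_nil N, Bp_nil N, ?_⟩
        intro t _ φ _
        left
        simp [ev]
      · intro F G hInv
        rw [seqA_acc]
        refine Cpl.soloL (most_replicate N e κ _ (most_RR x ε hwf N S κ hκpos.le) 0 []
          (Bp_nil N)) ?_
        intro f hf
        rw [zero_add] at hf
        refine Cpl.ret _ _ ?_
        intro t ht φ hφ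
        rw [ev_append]
        have h1 := (abs_le.1 (abs_ev_le hb hφ.1 (fun p hp => (hf.1 p hp).1))).2
        rw [hf.2] at h1
        have h2 : ev x φ F - ev x φ G ≤ 0 + nt κ LW * (ε * κ + 3 * δ₁) + LW.length * κ + 2 * κ := by
          rcases hInv.2.2 t ht φ hφ with hA | ⟨_, hB⟩
          · linarith
          · exact hB
        have h3 : (nt κ LW : ℝ) * (3 * δ₁) ≤ δ / 2 := by
          have : (nt κ LW : ℝ) ≤ (n : ℝ) + 1 := by exact_mod_cast hntle
          nlinarith
        have h4 : (nt κ LW : ℝ) * (ε * κ) ≤ ε * w := by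
          have h5 : (nt κ LW : ℝ) * κ ≤ w := hnt1.trans hsum
          nlinarith
        have h6 : (e : ℝ) * κ ≤ w - (LW.map Prod.fst).sum + LW.length * κ := by
          have h7 : (e : ℝ) * κ = w - nt κ LW * κ := by rw [hwn, hecast]; ring
          linarith
        nlinarith
    · refine (Cpl.trivial _ _).mono ?_
      intro f g _ t ht
      exact absurd ⟨t, ht⟩ hS

end Coupling

/-! ### assembly -/

section Final

variable {X : Type} [NormedAddCommGroup X] [NormedSpace ℝ X]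

/-- the vector of a weighted finite sequence of indices -/
def vec (x : ℕ → X) (f : Wt) : X := (f.map (fun p => p.2 • x p.1)).sum

lemma phi_vec (x : ℕ → X) (φ : X →L[ℝ] ℝ) (f : Wt) : φ (vec x f) = ev x φ f := by
  induction f with
  | nil => simp [vec, ev]
  | cons p f ih =>
    simp only [vec, ev, List.map_cons, List.sum_cons, map_add, map_smul, smul_eq_mul] at ih ⊢
    rw [ih]

lemma norm_vec_le {x : ℕ → X} (hb : ∀ n, ‖x n‖ ≤ 1) {f : Wt} (hf : ∀ p ∈ f, 0 ≤ p.2) :
    ‖vec x f‖ ≤ mass f := by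
  induction f with
  | nil => simp [vec, mass]
  | cons p f ih =>
    have h1 := ih (fun q hq => hf q (List.mem_cons_of_mem _ hq))
    have h0 := hf p List.mem_cons_self
    simp only [vec, mass, List.map_cons, List.sum_cons] at h1 ⊢
    refine (norm_add_le _ _).trans ?_
    have h2 : ‖p.2 • x p.1‖ ≤ p.2 := by
      rw [norm_smul, Real.norm_eq_abs, abs_of_nonneg h0]
      calc p.2 * ‖x p.1‖ ≤ p.2 * 1 := mul_le_mul_of_nonneg_left (hb _) h0
        _ = p.2 := mul_one _
    linarith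

lemma norm_le_of_forall_dual (v : X) {c : ℝ} (h : ∀ φ : X →L[ℝ] ℝ, ‖φ‖ ≤ 1 → φ v ≤ c) :
    ‖v‖ ≤ c := by
  obtain ⟨g, hg1, hg2⟩ := exists_dual_vector'' ℝ v
  have h1 := h g hg1
  have h2 : g v = ‖v‖ := by simpa using hg2
  linarith

/-- a uniformly continuous map on the unit ball is bounded -/
lemma bounded_of_uc {Y : Type} [NormedAddCommGroup Y] {f : Metric.closedBall (0 : X) 1 → Y}
    (hf : UniformContinuous f) : ∃ B : ℝ, ∀ v, ‖f v‖ ≤ B := by
  obtain ⟨δ, hδ, h⟩ := Metric.uniformContinuous_iff.1 hf 1 one_pos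
  obtain ⟨n, hn⟩ := exists_nat_gt (1 / δ)
  have hn0 : (0 : ℝ) < n := lt_trans (by positivity) hn
  have hδn : 1 / (n : ℝ) < δ := by
    rw [div_lt_iff₀ hδ] at hn
    rw [div_lt_iff₀ hn0]
    linarith
  let z : Metric.closedBall (0 : X) 1 := ⟨0, by simp⟩
  refine ⟨‖f z‖ + n, fun v => ?_⟩
  have hv : ‖(v : X)‖ ≤ 1 := mem_closedBall_zero_iff.1 v.2
  have key : ∀ k : ℕ, k ≤ n → ∃ u : Metric.closedBall (0 : X) 1,
      (u : X) = ((k : ℝ) / n) • (v : X) ∧ ‖f u‖ ≤ ‖f z‖ + k := by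
    intro k
    induction k with
    | zero => intro _; exact ⟨z, by simp [z], by simp⟩
    | succ k ih =>
      intro hk
      obtain ⟨u, hu1, hu2⟩ := ih (by omega)
      have hk' : ((k + 1 : ℕ) : ℝ) ≤ n := by exact_mod_cast hk
      have hmem : (((k + 1 : ℕ) : ℝ) / n) • (v : X) ∈ Metric.closedBall (0 : X) 1 := by
        rw [mem_closedBall_zero_iff, norm_smul, Real.norm_eq_abs, abs_of_nonneg (by positivity)]
        have h1 : ((k + 1 : ℕ) : ℝ) / n ≤ 1 := by rw [div_le_one hn0]; exact hk'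
        calc ((k + 1 : ℕ) : ℝ) / n * ‖(v : X)‖ ≤ 1 * 1 :=
              mul_le_mul h1 hv (norm_nonneg _) (by norm_num)
          _ = 1 := by norm_num
      refine ⟨⟨_, hmem⟩, rfl, ?_⟩
      have h1 : dist (f ⟨_, hmem⟩) (f u) < 1 := by
        apply h
        rw [Subtype.dist_eq, dist_eq_norm]
        show ‖(((k + 1 : ℕ) : ℝ) / n) • (v : X) - (u : X)‖ < δ
        rw [hu1, ← sub_smul, norm_smul]
        have h2 : ((k + 1 : ℕ) : ℝ) / n - (k : ℝ) / n = 1 / n := by push_cast; ring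
        rw [h2, Real.norm_eq_abs, abs_of_nonneg (by positivity)]
        calc 1 / (n : ℝ) * ‖(v : X)‖ ≤ 1 / (n : ℝ) * 1 :=
              mul_le_mul_of_nonneg_left hv (by positivity)
          _ < δ := by rw [mul_one]; exact hδn
      rw [dist_eq_norm] at h1
      have h3 : ‖f ⟨_, hmem⟩‖ ≤ ‖f ⟨_, hmem⟩ - f u‖ + ‖f u‖ := by
        simpa using norm_add_le (f ⟨_, hmem⟩ - f u) (f u)
      have h4 : ((k + 1 : ℕ) : ℝ) = (k : ℝ) + 1 := by push_cast; ring
      have h5 : ∀ a b c d : ℝ, a < 1 → b ≤ c + d → a + b ≤ c + (d + 1) := by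
        intro a b c d _ _; linarith
      have h6 := h5 _ _ _ _ h1 hu2
      rw [← h4] at h6
      exact h3.trans h6
  obtain ⟨u, hu1, hu2⟩ := key n le_rfl
  have h1 : u = v := by
    apply Subtype.ext
    rw [hu1, div_self hn0.ne', one_smul]
  rw [← h1]
  exact hu2

/-- the limit functional of a weakly Cauchy sequence is at positive distance from the space -/
lemma exists_theta [CompleteSpace X] (x : ℕ → X) (hb : ∀ n, ‖x n‖ ≤ 1)
    (hx : ∀ φ : X →L[ℝ] ℝ, CauchySeq (fun n => φ (x n)))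
    (hno : ¬ ∃ x₀ : X, ∀ φ : X →L[ℝ] ℝ, Tendsto (fun n => φ (x n)) atTop (𝓝 (φ x₀))) :
    ∃ (Λ : (X →L[ℝ] ℝ) → ℝ) (θ : ℝ), 0 < θ ∧
      (∀ φ : X →L[ℝ] ℝ, Tendsto (fun n => φ (x n)) atTop (𝓝 (Λ φ))) ∧
      ∀ v : X, ∃ ψ : X →L[ℝ] ℝ, ‖ψ‖ ≤ 1 ∧ θ ≤ Λ ψ - ψ v := by
  obtain ⟨Λ, _, hΛU⟩ := exists_flim
    (fun n => (NormedSpace.inclusionInDoubleDual ℝ X (x n) : (X →L[ℝ] ℝ) →L[ℝ] ℝ))
    (B := 1) zero_le_one
    (fun n => (NormedSpace.double_dual_bound ℝ X (x n)).trans (hb n))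
  have hΛ : ∀ φ : X →L[ℝ] ℝ, Tendsto (fun n => φ (x n)) atTop (𝓝 (Λ φ)) := by
    intro φ
    obtain ⟨a, ha⟩ := cauchySeq_tendsto_of_complete (hx φ)
    have h1 : Λ φ = a := tendsto_nhds_unique (hΛU φ)
      (ha.mono_left (Nat.hyperfilter_le_atTop : UU ≤ atTop))
    rw [h1]
    exact ha
  have hΛJ : Λ ∉ Set.range (NormedSpace.inclusionInDoubleDualLi ℝ (E := X)) := by
    rintro ⟨x0, hx0⟩
    refine hno ⟨x0, fun φ => ?_⟩
    have h1 := hΛ φ
    rw [← hx0] at h1
    exact h1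
  have hiso : Isometry (NormedSpace.inclusionInDoubleDualLi ℝ (E := X)) :=
    (NormedSpace.inclusionInDoubleDualLi ℝ (E := X)).isometry
  have hclosed : IsClosed (Set.range (NormedSpace.inclusionInDoubleDualLi ℝ (E := X))) :=
    hiso.isClosedEmbedding.isClosed_range
  obtain ⟨θ, hθ, hball⟩ := Metric.isOpen_iff.1 hclosed.isOpen_compl Λ hΛJ
  refine ⟨Λ, θ / 2, by positivity, hΛ, fun v => ?_⟩
  by_contra hcon
  push Not at hcon
  have hJv : NormedSpace.inclusionInDoubleDualLi ℝ (E := X) v ∉ Metric.ball Λ θ := by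
    intro hmem
    exact hball hmem ⟨v, rfl⟩
  apply hJv
  rw [Metric.mem_ball, dist_comm]
  have hdn : dist Λ (NormedSpace.inclusionInDoubleDualLi ℝ (E := X) v) =
      ‖Λ - NormedSpace.inclusionInDoubleDualLi ℝ (E := X) v‖ := dist_eq_norm _ _
  have hle : ‖Λ - NormedSpace.inclusionInDoubleDualLi ℝ (E := X) v‖ ≤ θ / 2 := by
    refine ContinuousLinearMap.opNorm_le_bound _ (by positivity) (fun φ => ?_)
    have hval : ∀ φ : X →L[ℝ] ℝ,
        (Λ - NormedSpace.inclusionInDoubleDualLi ℝ (E := X) v) φ = Λ φ - φ v := fun φ => rfl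
    have hone : ∀ φ : X →L[ℝ] ℝ, Λ φ - φ v ≤ θ / 2 * ‖φ‖ := by
      intro φ
      by_cases h0 : φ = 0
      · subst h0; simp
      · have hn : 0 < ‖φ‖ := norm_pos_iff.2 h0
        have h1 := hcon (‖φ‖⁻¹ • φ) (by
          rw [norm_smul, norm_inv, norm_norm, inv_mul_cancel₀ hn.ne'])
        rw [map_smul, smul_apply, smul_eq_mul, smul_eq_mul, ← mul_sub] at h1
        rw [inv_mul_lt_iff₀ hn] at h1
        linarith
    rw [hval, Real.norm_eq_abs, abs_le]
    have h1 := hone φ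
    have h2 := hone (-φ)
    rw [map_neg, neg_apply, norm_neg] at h2
    constructor <;> linarith
  refine lt_of_le_of_lt (le_of_eq hdn) ?_
  linarith

theorem main_normalised [CompleteSpace X] {Y : Type} [NormedAddCommGroup Y] [NormedSpace ℝ Y]
    (hY : Function.Surjective (NormedSpace.inclusionInDoubleDual ℝ Y))
    {f : Metric.closedBall (0 : X) 1 → Y} (hf : IsUniformEmbedding f)
    (x : ℕ → X) (hb : ∀ n, ‖x n‖ ≤ 1) (hx : ∀ φ : X →L[ℝ] ℝ, CauchySeq (fun n => φ (x n))) :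
    ∃ x₀ : X, ∀ φ : X →L[ℝ] ℝ, Tendsto (fun n => φ (x n)) atTop (𝓝 (φ x₀)) := by
  classical
  by_contra hno
  obtain ⟨Λ, θ, hθ, hΛ, hsep⟩ := exists_theta x hb hx hno
  obtain ⟨huc, hinv⟩ := Metric.isUniformInducing_iff.1 hf.isUniformInducing
  obtain ⟨c4, hc4, hinv4⟩ := hinv (θ / 2) (by positivity)
  set c := c4 / 4 with hc
  have hcpos : 0 < c := by positivity
  obtain ⟨η, hη, hucη⟩ := Metric.uniformContinuous_iff.1 huc c hcpos
  set ε := η / 4 with hε
  have hεpos : 0 < ε := by positivity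
  have hwf := wf_TR x ε hεpos hx
  set S : Finset Node := {[]} with hS
  set P := PP x ε hwf S 1 with hPdef
  have hKK := KK_all (hwf := hwf) hb hεpos.le _ S rfl 1 ε [(1, P)] one_pos hεpos
    (by
      intro q hq
      rw [List.mem_singleton] at hq
      subst hq
      exact ⟨zero_le_one, Or.inl ⟨S, subset_rfl, rfl⟩⟩)
    (by simp)
  have hseq : seqA ([(1, P)].map (Prod.snd : ℝ × Proc Wt → Proc Wt)) [] = P := by
    simp only [List.map_cons, List.map_nil, seqA, List.nil_append]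
    exact bind_ret P
  rw [hseq] at hKK
  have hP := most_PP' x ε hwf 0 S 1 zero_le_one
  obtain ⟨B, hB⟩ := bounded_of_uc huc
  have hB0 : 0 ≤ B := (norm_nonneg _).trans (hB ⟨0, by simp⟩)
  let F : Wt → Y := fun g => if h : ‖vec x g‖ ≤ 1 then
    f ⟨vec x g, by simpa using h⟩ else 0
  have hFval : ∀ g (h : ‖vec x g‖ ≤ 1), F g = f ⟨vec x g, by simpa using h⟩ :=
    fun g h => dif_pos h
  have hFB : ∀ g, ‖F g‖ ≤ B := by
    intro g
    by_cases h : ‖vec x g‖ ≤ 1
    · rw [hFval g h]; exact hB _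
    · have : F g = 0 := dif_neg h
      rw [this, norm_zero]; exact hB0
  have hin : ∀ (N : ℕ) (g : Wt), Bp N 1 g → ‖vec x g‖ ≤ 1 := by
    intro N g hg
    have := norm_vec_le hb (f := g) (fun p hp => (hg.1 p hp).1)
    rwa [hg.2] at this
  have hC : Cpl (fun f g : Wt => ‖vec x g‖ ≤ 1 ∧ ‖vec x f‖ ≤ 1 ∧ ‖vec x f - vec x g‖ ≤ 2 * ε)
      P P := by
    refine (hKK.and_most hP hP).mono ?_
    rintro f g ⟨h1, hf1, hg1⟩
    refine ⟨hin 0 g hg1, hin 0 f hf1, ?_⟩
    apply norm_le_of_forall_dual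
    intro φ hφ
    have h2 := h1 [] (by simp [hS]) φ ⟨hφ, by simp⟩
    rw [map_sub, phi_vec, phi_vec]
    simp only [List.map_cons, List.map_nil, List.sum_cons, List.sum_nil] at h2
    linarith
  obtain ⟨y, hy⟩ := concentration hY hC F hFB hcpos (by
    rintro v w ⟨h1, h2, h3⟩
    rw [hFval v h2, hFval w h1, ← dist_eq_norm]
    apply le_of_lt
    apply hucη
    rw [Subtype.dist_eq, dist_comm, dist_eq_norm]
    show ‖vec x v - vec x w‖ < η
    linarith)
  obtain ⟨v, hv1, hv2⟩ := (hy.and hP).exists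
  obtain ⟨ψ, hψ1, hψ2⟩ := hsep (vec x v)
  obtain ⟨N, hN⟩ := Metric.tendsto_atTop.1 (hΛ ψ) (θ / 4) (by positivity)
  have hPN := most_PP' x ε hwf N S 1 zero_le_one
  obtain ⟨w, hw1, hw2⟩ := (hy.and hPN).exists
  have hev : (Λ ψ - θ / 4) * mass w ≤ ev x ψ w := by
    apply le_ev x (fun p hp => (hw2.1 p hp).1)
    intro p hp
    have h1 := hN p.1 (hw2.1 p hp).2.le
    rw [Real.dist_eq, abs_lt] at h1
    linarith [h1.1]
  rw [hw2.2, mul_one, ← phi_vec] at hev
  have hnorm : ψ (vec x w - vec x v) ≤ ‖vec x w - vec x v‖ := by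
    calc ψ (vec x w - vec x v) ≤ ‖ψ (vec x w - vec x v)‖ := le_abs_self _
      _ ≤ ‖ψ‖ * ‖vec x w - vec x v‖ := ψ.le_opNorm _
      _ ≤ 1 * ‖vec x w - vec x v‖ := mul_le_mul_of_nonneg_right hψ1 (norm_nonneg _)
      _ = _ := one_mul _
  rw [map_sub] at hnorm
  have hdist : dist (F w) (F v) < c4 := by
    have h1 : dist (F w) (F v) ≤ ‖F w - y‖ + ‖F v - y‖ := by
      rw [dist_eq_norm]
      have : F w - F v = (F w - y) - (F v - y) := by abel
      rw [this]
      exact norm_sub_le _ _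
    linarith
  rw [hFval v (hin 0 v hv2), hFval w (hin N w hw2)] at hdist
  have h2 := hinv4 hdist
  rw [Subtype.dist_eq, dist_eq_norm] at h2
  have h3 : ‖vec x w - vec x v‖ < θ / 2 := h2
  linarith

theorem main_theorem [CompleteSpace X] {Y : Type} [NormedAddCommGroup Y] [NormedSpace ℝ Y]
    (hY : Function.Surjective (NormedSpace.inclusionInDoubleDual ℝ Y))
    {f : Metric.closedBall (0 : X) 1 → Y} (hf : IsUniformEmbedding f)
    (x : ℕ → X) (hx : ∀ φ : X →L[ℝ] ℝ, CauchySeq (fun n => φ (x n))) :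
    ∃ x₀ : X, ∀ φ : X →L[ℝ] ℝ, Tendsto (fun n => φ (x n)) atTop (𝓝 (φ x₀)) := by
  obtain ⟨C, hC⟩ := banach_steinhaus
    (g := fun n => (NormedSpace.inclusionInDoubleDual ℝ X (x n) : (X →L[ℝ] ℝ) →L[ℝ] ℝ)) (by
      intro φ
      obtain ⟨a, ha⟩ := cauchySeq_tendsto_of_complete (hx φ)
      obtain ⟨C, hC⟩ := ha.norm.bddAbove_range
      exact ⟨C, fun n => hC ⟨n, rfl⟩⟩)
  have hbd : ∀ n, ‖x n‖ ≤ C := by
    intro n
    have h1 : ‖NormedSpace.inclusionInDoubleDual ℝ X (x n)‖ = ‖x n‖ :=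
      (NormedSpace.inclusionInDoubleDualLi ℝ (E := X)).norm_map (x n)
    rw [← h1]
    exact hC n
  set M := |C| + 1 with hM
  have hMpos : 0 < M := by positivity
  obtain ⟨x₀, hx₀⟩ := main_normalised hY hf (fun n => M⁻¹ • x n)
    (fun n => by
      rw [norm_smul, norm_inv, Real.norm_eq_abs, abs_of_pos hMpos, inv_mul_le_iff₀ hMpos, mul_one]
      have h1 := le_abs_self C
      linarith [hbd n])
    (fun φ => by
      have h1 : (fun n => φ (M⁻¹ • x n)) = fun n => M⁻¹ * φ (x n) := by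
        funext n; rw [map_smul, smul_eq_mul]
      rw [h1]
      obtain ⟨a, ha⟩ := cauchySeq_tendsto_of_complete (hx φ)
      exact (ha.const_mul M⁻¹).cauchySeq)
  refine ⟨M • x₀, fun φ => ?_⟩
  have h1 := (hx₀ φ).const_mul M
  have h2 : (fun n => M * φ (M⁻¹ • x n)) = fun n => φ (x n) := by
    funext n
    rw [map_smul, smul_eq_mul, mul_inv_cancel_left₀ hMpos.ne']
  rw [h2] at h1
  rw [map_smul, smul_eq_mul]
  exact h1

end Final

end Pool.Agent.Helper301.WSC
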